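import Pool.Agent.Results.MP_32dfd1_ag.PowerSaving

/-!
# Homologically trivial cycles over `ℚ̄` and Euler characteristics of hypersurface complements

The notation is as in `MP_32dfd1_ag.PowerSaving`: for `m` and `d` and a Chow motive `N` over `ℚ̄`, `T_d(N)` is
the subspace of `CH(N) = Hom(1, N)` spanned by the images `f_*(x)` of the homologically trivial cycle classes
`x ∈ CH^m(Y)_ℚ` on the smooth projective `Y` over `ℚ̄` with `dim Y ≤ d` and `H^{2m-1}(Y, ℚ) = 0`, under all
correspondences `f : h(Y)(m) → N`. By base change it is an additive functor of the Chow motives over `ℚ`.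

For a separated scheme `X` of finite type over `ℚ` let `W(X)` be its weight complex with compact supports. If
the spaces `H^c(T_d(W(X)(m)))` have finite dimension and almost all of them are zero (`HasChi M m d X`), let
`e_d(X)` be their Euler characteristic (`euler M m d X`). Nothing is known about these dimensions.

We look at the principal open subsets `D(F) : F ≠ 0` of the affine spaces over `ℚ`. For `F ∈ ℤ[x_1, …, x_r]`
let `‖F‖` be the sum of the absolute values of the coefficients, and let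
`size F = deg F + log ‖F‖ / log (log ‖F‖ + 3)`.

**Theorem.** (1) For all `m` and `d` the following are equivalent: Q1 is true for `m` and all smooth
projective varieties over `ℚ̄` of dimension at most `d`; for all `F ∈ ℤ[x_1, …, x_(d+1)]` the number
`e_d(D(F))` is defined, and it is `o(size F)`; for all `F ∈ ℚ[x_1, …, x_(d+1)]` it is defined, and it is
`o(deg F)`.

(2) If `κ ≥ 1`, then it is enough that the numbers `e_d(D(F))` are defined and `o((size F)^κ)`
for `F ∈ ℤ[x_1, …, x_(d+κ)]`. One-sided bounds (`e_d ≤ o((size F)^κ)`, or `-e_d ≤ o((size F)^κ)`) for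
the polynomials in `d + κ` and in `d + κ + 1` variables are enough, too.

(3) It is also equivalent to the existence of one-sided bounds `e_d(D(F)) ≤ o((size F)^(r - s))` for all `s`,
all `r ≥ r₀(s)` and all `F ∈ ℤ[x_1, …, x_r]`, and to the existence of such bounds for `-e_d(D(F))`.

Here `d` can be arbitrary; so Q1 for `m` and all smooth projective varieties is equivalent to these bounds
for all `d`.
-/

set_option autoImplicit false
set_option linter.checkUnivs false

open CategoryTheory Limits AlgebraicGeometry Pool.Agent.Y116.UV Pool.Agent.Q282.UM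
  Pool.Agent.Q282.UK Pool.Agent.Helper24.KD Pool.Agent.Helper24.KF

open Pool.Agent.Results.MP_32dfd1_ag.PowerSaving (Mot Known ConjDim TQ of_zero t_zero points_zero)

universe v' u' v u

namespace Pool.Agent.Results.MP_32dfd1_ag.EulerCharacteristics

/-- The principal open subset `D(F) : F ≠ 0` of the affine space over `ℚ`. -/
noncomputable def princ {r : ℕ} (F : MvPolynomial (Fin r) ℚ) : Sch ℚ := aff ℚ (Localization.Away F)

/-- The sum of the absolute values of the coefficients. -/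
def norm {r : ℕ} (F : MvPolynomial (Fin r) ℤ) : ℕ := ∑ s ∈ F.support, (F.coeff s).natAbs

/-- The size `deg F + log ‖F‖ / log (log ‖F‖ + 3)`. -/
noncomputable def size {r : ℕ} (F : MvPolynomial (Fin r) ℤ) : ℝ :=
  F.totalDegree + Real.log (norm F) / Real.log (Real.log (norm F) + 3)

/-- The polynomial with rational coefficients. -/
noncomputable def rat {r : ℕ} (F : MvPolynomial (Fin r) ℤ) : MvPolynomial (Fin r) ℚ :=
  MvPolynomial.map (algebraMap ℤ ℚ) F

variable (M : Mot.{v', u', v, u})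

/-- The Euler characteristic is defined. -/
def HasChi (m : ℤ) (d : ℕ) (X : Sch ℚ) : Prop := FinCoh (TQ M m d) (M.wt m X)

/-- The Euler characteristic `e_d(X)` of the spaces `H^c(T_d(W(X)(m)))`. -/
noncomputable def euler (m : ℤ) (d : ℕ) (X : Sch ℚ) : ℤ := chi (TQ M m d) (M.wt m X)

/-- The numbers `e_d(D(F))`, `F ∈ ℤ[x_1, …, x_r]`, are defined and satisfy `R (e_d) ≤ o((size F)^κ)`, where
`R c` is `|c|`, `c` or `-c`. -/
def Bound (R : ℤ → ℤ) (m : ℤ) (d r κ : ℕ) : Prop :=
  ∀ ε : ℝ, 0 < ε → ∃ B : ℝ, ∀ F : MvPolynomial (Fin r) ℤ, HasChi M m d (princ (rat F)) ∧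
    (R (euler M m d (princ (rat F))) : ℝ) ≤ ε * size F ^ κ + B

/-- The numbers `e_d(D(F))`, `F ∈ ℚ[x_1, …, x_r]`, are defined and `o(deg F)`. -/
def DegBound (m : ℤ) (d r : ℕ) : Prop :=
  ∀ ε : ℝ, 0 < ε → ∃ B : ℝ, ∀ F : MvPolynomial (Fin r) ℚ, HasChi M m d (princ F) ∧
    |(euler M m d (princ F) : ℝ)| ≤ ε * F.totalDegree + B

section

variable {M}

variable (M) in
/-- The Euler characteristic is defined and is `c`. -/
def Q (m : ℤ) (d : ℕ) : Sch ℚ → ℤ → Prop := QT (TOne (TQ M m d)) M.D m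

lemma Q_iff (m : ℤ) (d : ℕ) (X : Sch ℚ) (c : ℤ) :
    Q M m d X c ↔ HasChi M m d X ∧ euler M m d X = c := tOne_iff

lemma to_Z {R : ℤ → ℤ} {m : ℤ} {d r κ : ℕ} (h : Bound M R m d r κ) :
    BoundZ (Q M m d) R r κ := by
  intro ε hε
  obtain ⟨B, hB⟩ := h ε hε
  exact ⟨B, fun F => ⟨_, (Q_iff m d _ _).mpr ⟨(hB F).1, rfl⟩, (hB F).2⟩⟩

lemma of_Z {R : ℤ → ℤ} {m : ℤ} {d r κ : ℕ} (h : BoundZ (Q M m d) R r κ) :
    Bound M R m d r κ := by
  intro ε hε
  obtain ⟨B, hB⟩ := h ε hε
  refine ⟨B, fun F => ?_⟩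
  obtain ⟨c, h1, h2⟩ := hB F
  obtain ⟨h3, h4⟩ := (Q_iff m d _ c).mp h1
  refine ⟨h3, ?_⟩
  have h5 : euler M m d (princ (rat F)) = c := h4
  rw [h5]
  exact h2

variable (hM : Known M)

include hM

lemma dfc (m : ℤ) (d : ℕ) : Pool.Agent.Helper24.KE.Dfc True (Q M m d) :=
  dfcT (tOne _) hM.weight m

lemma space (m : ℤ) (d n : ℕ) : Q M m d (aff ℚ (MvPolynomial (Fin n) ℚ)) 0 := by
  refine spaceT (tOne _) hM.weight (fun j => ?_) m n
  refine one_zero hM.weight (N := 0) (points_zero hM m d j) _ (ft_aff True) ?_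
  rw [Pool.Agent.Z125.UN.topDim_aff, ringKrullDim_eq_zero_of_field]
  exact le_rfl

/-- If Q1 is true then the Euler characteristics are zero. -/
lemma open_zero {m : ℤ} {d : ℕ} (h : ConjDim M m d) {r : ℕ} (F : MvPolynomial (Fin r) ℚ) :
    Q M m d (Pool.Agent.Helper24.KE.U F) 0 := by
  obtain ⟨N, hN⟩ := Pool.Agent.Helper24.KZ.exists_dim_aff (k := ℚ) (Localization.Away F)
  exact one_zero hM.weight (fun Y _ _ => t_zero h _) _ (ft_aff True) hN

lemma to_bound {m : ℤ} {d : ℕ} (h : ConjDim M m d) {R : ℤ → ℤ} (hR : R 0 = 0) (r κ : ℕ) :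
    Bound M R m d r κ :=
  of_Z (to_boundZ (open_zero hM h) hR κ)

lemma conj_of {m : ℤ} {d : ℕ} (h : ∀ X : Sch ℚ, FT True X → topologicalKrullDim X.left ≤ d →
    Q M m d X 0) : ConjDim M m d := by
  refine of_zero hM fun Y hY hd => ?_
  obtain ⟨h1, h2⟩ := one_inZero.mp (projT (tOne (TQ M m d)) hM.weight hY
    (h Y (ft_projective hY) hd))
  exact Module.finrank_zero_iff.mp (by exact_mod_cast h2)

/-- The degree. -/
theorem deg_bound (m : ℤ) (d : ℕ) : ConjDim M m d ↔ DegBound M m d (d + 1) := by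
  constructor
  · intro h ε hε
    obtain ⟨B, hB⟩ := to_boundK (open_zero hM h (r := d + 1)) ε hε
    refine ⟨B, fun F => ?_⟩
    obtain ⟨c, h1, h2⟩ := hB F
    obtain ⟨h3, h4⟩ := (Q_iff m d _ c).mp h1
    refine ⟨h3, ?_⟩
    have h5 : euler M m d (princ F) = c := h4
    rw [h5]
    exact h2
  · intro h
    refine conj_of hM fun X hX hd => main_field (dfc hM m d) (space hM m d) ?_ X hX hd
    intro ε hε
    obtain ⟨B, hB⟩ := h ε hε
    exact ⟨B, fun F => ⟨_, (Q_iff m d _ _).mpr ⟨(hB F).1, rfl⟩, (hB F).2⟩⟩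

end

/-- Q1 for `m` and `d`; upper bounds for the Euler characteristics; lower bounds. -/
def Forms (m : ℤ) (d : ℕ) : List Prop :=
  [ConjDim M m d,
    ∀ s : ℕ, ∃ r₀ : ℕ, ∀ r, r₀ ≤ r → Bound M id m d r (r - s),
    ∀ s : ℕ, ∃ r₀ : ℕ, ∀ r, r₀ ≤ r → Bound M Neg.neg m d r (r - s)]

variable {M}

theorem forms_tfae (hM : Known M) (m : ℤ) (d : ℕ) : (Forms M m d).TFAE := by
  unfold Forms
  have hto : ConjDim M m d → ∀ R : ℤ → ℤ, R 0 = 0 →
      ∀ s : ℕ, ∃ r₀ : ℕ, ∀ r, r₀ ≤ r → Bound M R m d r (r - s) :=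
    fun h R hR s => ⟨0, fun r _ => to_bound hM h hR _ _⟩
  have hof : ∀ R : ℤ → ℤ, (R = id ∨ R = Neg.neg) →
      (∀ s : ℕ, ∃ r₀ : ℕ, ∀ r, r₀ ≤ r → Bound M R m d r (r - s)) → ConjDim M m d :=
    fun R hR h => conj_of hM fun X hX _ =>
      main_all (dfc hM m d) (space hM m d) hR (fun s => by
        obtain ⟨r₀, hr⟩ := h s
        exact ⟨r₀, fun r h1 => to_Z (hr r h1)⟩) X hX
  tfae_have 1 → 2 := fun h => hto h id rfl
  tfae_have 1 → 3 := fun h => hto h Neg.neg neg_zero
  tfae_have 2 → 1 := fun h => hof id (Or.inl rfl) h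
  tfae_have 3 → 1 := fun h => hof Neg.neg (Or.inr rfl) h
  tfae_finish

/-- **Homologically trivial cycles over `ℚ̄` and Euler characteristics of hypersurface complements.** See the
explanations above. -/
theorem result (M : Mot.{v', u', v, u}) (hM : Known M) (m : ℤ) (d : ℕ) :
    -- (1) two-sided bounds `o(size)` and `o(deg)`
    (ConjDim M m d ↔ Bound M abs m d (d + 1) 1) ∧
    (ConjDim M m d ↔ DegBound M m d (d + 1)) ∧
    -- (2) bounds `o(size^κ)`, and one-sided bounds
    (∀ κ : ℕ, 1 ≤ κ → (ConjDim M m d ↔ Bound M abs m d (d + κ) κ)) ∧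
    (∀ κ : ℕ, 1 ≤ κ → ∀ R : ℤ → ℤ, (R = id ∨ R = Neg.neg) →
      (ConjDim M m d ↔ Bound M R m d (d + κ) κ ∧ Bound M R m d (d + κ + 1) κ)) ∧
    -- (3) all numbers of variables
    (Forms M m d).TFAE := by
  have h2 : ∀ κ : ℕ, 1 ≤ κ → (ConjDim M m d ↔ Bound M abs m d (d + κ) κ) := fun κ hκ =>
    ⟨fun h => to_bound hM h abs_zero _ _, fun h => conj_of hM fun X hX hd =>
      main_abs (dfc hM m d) (space hM m d) hκ (to_Z h) X hX hd⟩
  refine ⟨h2 1 le_rfl, deg_bound hM m d, h2, fun κ hκ R hR => ⟨fun h => ?_, fun h => ?_⟩,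
    forms_tfae hM m d⟩
  · have h0 : R 0 = 0 := by rcases hR with rfl | rfl <;> rfl
    exact ⟨to_bound hM h h0 _ _, to_bound hM h h0 _ _⟩
  · exact conj_of hM fun X hX hd =>
      main_one (dfc hM m d) (space hM m d) hκ hR (to_Z h.1) (to_Z h.2) X hX hd

end Pool.Agent.Results.MP_32dfd1_ag.EulerCharacteristics
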