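import Pool.Agent.Helper24.SE.Mot

/-!
# Homologically trivial cycles over `ℚ̄` and exceptional sets with a power saving

Chow motives have rational coefficients. For a Chow motive `N` over `ℚ̄` let `CH(N) = Hom(1, N)` and
`H^i(N)` be its Betti cohomology, with the cycle class map `cl : CH(N) → H^0(N)`; for the motive
`N = h(X)(m)` of a smooth projective `X` this is the cycle class map
`CH^m(X)_ℚ → H^{2m}(X, ℚ)(m)`, and `H^{-1}(N) = H^{2m-1}(X, ℚ)(m)`. Question Q1 for `X` and `m` says: if
`H^{2m-1}(X, ℚ) = 0` then the cycle class map `CH^m(X)_ℚ → H^{2m}(X, ℚ)` is injective.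

For `m` and `d` let `T_d(N)` be the subspace of `CH(N)` spanned by the images `f_*(x)` of the
homologically trivial cycle classes `x ∈ CH^m(Y)_hom` on the smooth projective `Y` over `ℚ̄` with
`dim Y ≤ d` and `H^{2m-1}(Y, ℚ) = 0`, under all correspondences `f : h(Y)(m) → N`. It is an additive functor
of `N`, and by base change it is a functor of the Chow motives over `ℚ`.

For a separated scheme `X` of finite type over `ℚ` let `W(X)` be its weight complex with compact supports
(Gillet, Soulé), a bounded complex of Chow motives over `ℚ`. For the complement `D(F)` of the hypersurface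
`F = 0` in the affine space over `ℚ`, `F ∈ ℤ[x_1, …, x_r]`, we call `F` an exception (for `m`, `d`) if it is
false that the total dimension of the spaces `H^c(T_d(W(D(F))(m)))` is finite and their Euler characteristic
is zero. Let `Box(D, B)` be the finite set of the `F` of degree at most `D` in each variable, for which the
sum of the absolute values of the coefficients is at most `B`, and `Exc(D, B)` the set of the exceptions in
the box.

**Theorem.** (1) Let `m`, `d` be given. Q1 is true for `m` and all smooth projective varieties over `ℚ̄` of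
dimension at most `d` if and only if the exceptional sets in `d + 1` variables have a power saving: for some
`ε > 0` there are infinitely many `D` and for these infinitely many `B` such that
`#Exc(D, B) ≤ #Box(D, B) ^ (1 - ε)`.

(2) Q1 is true for `m` and all smooth projective varieties over `ℚ̄`, of all dimensions, if and only if the exceptional sets have
a power saving for infinitely many `d`.

(3) A zero–one law: if there is one exception for `m`, `d` in `r` variables, for any `r`, then Q1 is false for
`m` and some smooth projective variety of dimension at most `d`, and for every `ε > 0`, for all large `D` and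
all large `B` (depending on `D`) there are more than `#Box(D, B) ^ (1 - ε)` exceptions in `r` variables. By
(1), if Q1 is false for `m` and some smooth projective variety of dimension at most `d`, then there is such
an exception with `r = d + 1`.
-/

set_option autoImplicit false
set_option linter.checkUnivs false

open CategoryTheory Limits AlgebraicGeometry Filter Pool.Agent.Y116.UV Pool.Agent.Q282.UM
  Pool.Agent.Q282.UK Pool.Agent.Helper24.KD Pool.Agent.Helper24.KF

open Pool.Agent.Helper24.SE (Box Exc Saving)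

universe v' u' v u

namespace Pool.Agent.Results.MP_32dfd1_ag.PowerSaving

/-- The field `ℚ̄`. -/
abbrev QBar : Type := AlgebraicClosure ℚ

/-- The complement `D(F) : F ≠ 0` in the affine space over `ℚ`. -/
noncomputable def princ {r : ℕ} (F : MvPolynomial (Fin r) ℤ) : Sch ℚ :=
  aff ℚ (Localization.Away (MvPolynomial.map (algebraMap ℤ ℚ) F))

/-- Chow motives with rational coefficients.

* `C₀` is the category of the Chow motives over `ℚ`, with the motives `h(X)`, the Tate twists `N(j)` and the
  weight complexes `W(X)` (`Weights`);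
* `C` is the category of the Chow motives over `ℚ̄`, with the motives `mot m X = h(X)(m)` of the smooth
  projective `X` over `ℚ̄`; `base` is the base change;
* `CH(N) = Hom(1, N)`, so that `CH(h(X)(m)) = CH^m(X)_ℚ`, `H i` is the Betti cohomology, so that
  `H^i(h(X)(m)) = H^{i+2m}(X, ℚ)(m)`, and `cl` is the cycle class map. -/
structure Mot where
  C₀ : Type u
  [cat₀ : Category.{v} C₀]
  [pre₀ : Preadditive C₀]
  [zero₀ : HasZeroObject C₀]
  [bin₀ : HasBinaryBiproducts C₀]
  [fin₀ : HasFiniteBiproducts C₀]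
  D : Weights ℚ C₀
  C : Type u'
  [cat : Category.{v'} C]
  [pre : Preadditive C]
  mot : ℤ → Sch QBar → C
  base : C₀ ⥤ C
  [base_additive : base.Additive]
  CH : C ⥤ ModuleCat.{0} ℚ
  [ch_additive : CH.Additive]
  H : ℤ → C ⥤ ModuleCat.{0} ℚ
  cl : CH ⟶ H 0

attribute [instance] Mot.cat₀ Mot.pre₀ Mot.zero₀ Mot.bin₀ Mot.fin₀ Mot.cat Mot.pre Mot.base_additive
  Mot.ch_additive

variable (M : Mot.{v', u', v, u})

/-- The base change of the motive `h(X)(m)` of a smooth projective `X` over `ℚ`. -/
noncomputable def Mot.pull (m : ℤ) (X : Sch ℚ) : M.C := M.base.obj ((M.D.tw m).obj (M.D.h X))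

/-- The complex `W(X)(m)`. -/
noncomputable def Mot.wt (m : ℤ) (X : Sch ℚ) : HK M.C₀ := onHK (M.D.tw m) (M.D.W X)

/-- `H^{2m-1}(X, ℚ) = 0`. -/
def NoOdd (m : ℤ) (X : Sch QBar) : Prop := Subsingleton ((M.H (-1)).obj (M.mot m X))

/-- Question Q1 for `X` and the codimension `m`: if `H^{2m-1}(X, ℚ) = 0` then the cycle class map of
`CH^m(X)_ℚ` is injective. -/
def Question (m : ℤ) (X : Sch QBar) : Prop :=
  NoOdd M m X → Function.Injective (M.cl.app (M.mot m X))

/-- Question Q1 for `m` and the smooth projective varieties over `ℚ̄` of dimension at most `d`. -/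
def ConjDim (m : ℤ) (d : ℕ) : Prop :=
  ∀ X : Sch QBar, IsSmoothProjective X → topologicalKrullDim X.left ≤ d → Question M m X

/-- The action `f_* : CH(N) → CH(N')` of a correspondence `f : N → N'`. -/
noncomputable def act {N N' : M.C} (f : N ⟶ N') : M.CH.obj N →ₗ[ℚ] M.CH.obj N' := (M.CH.map f).hom

/-- The space `CH(N)_hom` of the homologically trivial classes. -/
noncomputable def Hom (N : M.C) : Submodule ℚ (M.CH.obj N) := LinearMap.ker (M.cl.app N).hom

/-- `z = f_*(x)` for a class `x ∈ CH^m(Y)_hom`, `dim Y ≤ d`, `H^{2m-1}(Y, ℚ) = 0`, and a correspondence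
`f : h(Y)(m) → N`. -/
def IsImage (m : ℤ) (d : ℕ) (N : M.C) (z : M.CH.obj N) : Prop :=
  ∃ (Y : Sch QBar) (f : M.mot m Y ⟶ N) (x : M.CH.obj (M.mot m Y)),
    IsSmoothProjective Y ∧ topologicalKrullDim Y.left ≤ d ∧ NoOdd M m Y ∧ x ∈ Hom M (M.mot m Y) ∧
      z = act M f x

/-- The space `T_d(N)`, spanned by the images `f_*(x)` of the classes `x ∈ CH^m(Y)_hom`, `dim Y ≤ d`,
`H^{2m-1}(Y, ℚ) = 0`, under the correspondences `f : h(Y)(m) → N`. -/
noncomputable def T (m : ℤ) (d : ℕ) (N : M.C) : Submodule ℚ (M.CH.obj N) :=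
  Submodule.span ℚ {z | IsImage M m d N z}

lemma t_map {m : ℤ} {d : ℕ} {N N' : M.C} (g : N ⟶ N') :
    ∀ x ∈ T M m d N, act M g x ∈ T M m d N' := by
  intro x hx
  have h1 : T M m d N ≤ (T M m d N').comap (act M g) := by
    refine Submodule.span_le.mpr ?_
    rintro z ⟨Y, f, x, h1, h2, h3, h4, rfl⟩
    refine Submodule.subset_span ⟨Y, f ≫ g, x, h1, h2, h3, h4, ?_⟩
    unfold act
    rw [M.CH.map_comp]
    rfl
  exact h1 hx

/-- The vector space `T_d(N)`. -/
noncomputable def tObj (m : ℤ) (d : ℕ) (N : M.C) : ModuleCat.{0} ℚ := ModuleCat.of ℚ (T M m d N)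

/-- The map `T_d(N) → T_d(N')` given by `g : N → N'`. -/
noncomputable def tMap (m : ℤ) (d : ℕ) {N N' : M.C} (g : N ⟶ N') : tObj M m d N ⟶ tObj M m d N' :=
  ModuleCat.ofHom ((act M g).restrict (t_map M g))

lemma tMap_id (m : ℤ) (d : ℕ) (N : M.C) : tMap M m d (𝟙 N) = 𝟙 (tObj M m d N) := by
  refine ModuleCat.hom_ext (LinearMap.ext fun x => Subtype.ext ?_)
  change (M.CH.map (𝟙 N)).hom x.1 = x.1
  rw [M.CH.map_id]
  rfl

lemma tMap_comp (m : ℤ) (d : ℕ) {N N' N'' : M.C} (f : N ⟶ N') (g : N' ⟶ N'') :
    tMap M m d (f ≫ g) = tMap M m d f ≫ tMap M m d g := by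
  refine ModuleCat.hom_ext (LinearMap.ext fun x => Subtype.ext ?_)
  change (M.CH.map (f ≫ g)).hom x.1 = (M.CH.map g).hom ((M.CH.map f).hom x.1)
  rw [M.CH.map_comp]
  rfl

/-- The functor `T_d` on the Chow motives over `ℚ̄`. -/
noncomputable def TF (m : ℤ) (d : ℕ) : M.C ⥤ ModuleCat.{0} ℚ where
  obj N := tObj M m d N
  map g := tMap M m d g
  map_id N := tMap_id M m d N
  map_comp f g := tMap_comp M m d f g

instance (m : ℤ) (d : ℕ) : (TF M m d).Additive where
  map_add {N N' f g} := by
    refine ModuleCat.hom_ext (LinearMap.ext fun x => Subtype.ext ?_)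
    change (M.CH.map (f + g)).hom x.1 = (M.CH.map f).hom x.1 + (M.CH.map g).hom x.1
    rw [M.CH.map_add]
    rfl

/-- The functor `T_d` on the Chow motives over `ℚ`. -/
noncomputable def TQ (m : ℤ) (d : ℕ) : M.C₀ ⥤ ModuleCat.{0} ℚ := M.base ⋙ TF M m d

instance (m : ℤ) (d : ℕ) : (TQ M m d).Additive :=
  (inferInstance : (M.base ⋙ TF M m d).Additive)

/-- The known properties of the Chow motives.

* `weight`: the weight complexes;
* `points`: the cycle class maps of the twists of zero-dimensional schemes are injective;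
* `model`: for every smooth projective `X` over `ℚ̄` there is a smooth projective `X'` over `ℚ` of the same
  dimension such that `h(X)(m)` is a direct summand of the base change of `h(X')(m)` (a model of `X` over a
  number field, as a scheme over `ℚ`). -/
structure Known : Prop where
  weight : IsWeightComplex M.D
  points : ∀ (X : Sch ℚ), IsSmoothProjective X → topologicalKrullDim X.left ≤ (0 : ℕ) →
    ∀ j : ℤ, Hom M (M.pull j X) = ⊥
  model : ∀ (X : Sch QBar), IsSmoothProjective X → ∃ X' : Sch ℚ, IsSmoothProjective X' ∧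
    topologicalKrullDim X'.left = topologicalKrullDim X.left ∧
    ∀ m : ℤ, Nonempty (Retract (M.mot m X) (M.pull m X'))

/-- `F` is an exception for `m`, `d`: it is false that the spaces `H^c(T_d(W(D(F))(m)))` have finite total
dimension and Euler characteristic zero. -/
def Exception (m : ℤ) (d : ℕ) {r : ℕ} (F : MvPolynomial (Fin r) ℤ) : Prop :=
  ¬ (FinCoh (TQ M m d) (M.wt m (princ F)) ∧ chi (TQ M m d) (M.wt m (princ F)) = 0)

lemma exception_iff (m : ℤ) (d r : ℕ) :
    (Exception M m d : MvPolynomial (Fin r) ℤ → Prop) =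
      Pool.Agent.Helper24.SE.Excp (TQ M m d) M.D m := by
  funext F
  exact propext (not_congr tOne_iff.symm)

/-- The exceptions in `r` variables have full logarithmic density: for every `ε > 0`, for all large `D` and all
large `B` (depending on `D`) there are more than `#Box(D, B) ^ (1 - ε)` of them in the box. -/
def Full (r : ℕ) (Bad : MvPolynomial (Fin r) ℤ → Prop) : Prop :=
  ∀ ε : ℝ, 0 < ε → ∀ᶠ D : ℕ in atTop, ∀ᶠ B : ℕ in atTop,
    ((Box r D B).ncard : ℝ) ^ (1 - ε) < ((Exc (r := r) Bad D B).ncard : ℝ)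

variable {M}

lemma t_le (m : ℤ) (d : ℕ) (N : M.C) : T M m d N ≤ Hom M N := by
  refine Submodule.span_le.mpr ?_
  rintro z ⟨Y, f, x, _, _, _, h4, rfl⟩
  have e := congrArg (fun φ => φ.hom x) (M.cl.naturality f)
  change (M.cl.app N).hom ((M.CH.map f).hom x) = ((M.H 0).map f).hom ((M.cl.app _).hom x) at e
  change (M.cl.app N).hom ((M.CH.map f).hom x) = 0
  rw [e, show (M.cl.app (M.mot m Y)).hom x = 0 from h4, map_zero]

lemma inj_iff (N : M.C) : Function.Injective (M.cl.app N) ↔ ∀ x ∈ Hom M N, x = 0 := by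
  change Function.Injective (M.cl.app N).hom ↔ _
  rw [injective_iff_map_eq_zero]
  rfl

/-- If Q1 is true for `m`, `d`, then `T_d = 0`. -/
lemma t_zero {m : ℤ} {d : ℕ} (h : ConjDim M m d) (N : M.C) : Subsingleton ((TF M m d).obj N) := by
  have h1 : T M m d N = ⊥ := by
    rw [eq_bot_iff]
    refine Submodule.span_le.mpr ?_
    rintro z ⟨Y, f, x, h1, h2, h3, h4, rfl⟩
    rw [(inj_iff _).mp (h Y h1 h2 h3) x h4, map_zero]
    exact Submodule.zero_mem _
  change Subsingleton (T M m d N)
  rw [h1]
  infer_instance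

/-- If `T_d(h(X')(m)) = 0` for the smooth projective `X'` over `ℚ` of dimension at most `d`, then Q1 is true
for `m`, `d`. -/
lemma of_zero (hM : Known M) {m : ℤ} {d : ℕ} (h : ∀ Y : Sch ℚ, IsSmoothProjective Y →
    topologicalKrullDim Y.left ≤ d → Subsingleton ((TQ M m d).obj ((M.D.tw m).obj (M.D.h Y)))) :
    ConjDim M m d := by
  intro X hX hd hodd
  obtain ⟨X', hX', e, hr⟩ := hM.model X hX
  obtain ⟨ρ⟩ := hr m
  have h1 : Subsingleton (T M m d (M.pull m X')) := h X' hX' (e ▸ hd)
  rw [inj_iff]
  intro x hx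
  have h2 : act M ρ.i x ∈ T M m d (M.pull m X') :=
    Submodule.subset_span ⟨X, ρ.i, x, hX, hd, hodd, hx, rfl⟩
  have h3 : act M ρ.i x = 0 :=
    congrArg Subtype.val (Subsingleton.elim (⟨_, h2⟩ : T M m d _) 0)
  have h4 : act M ρ.r (act M ρ.i x) = x := by
    have e := congrArg (fun φ => (M.CH.map φ).hom x) ρ.retract
    change (M.CH.map (ρ.i ≫ ρ.r)).hom x = (M.CH.map (𝟙 _)).hom x at e
    rw [M.CH.map_comp, M.CH.map_id] at e
    exact e
  rw [← h4, h3, map_zero]

lemma points_zero (hM : Known M) (m : ℤ) (d : ℕ) (n : ℤ) (Y : Sch ℚ) (hY : IsSmoothProjective Y)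
    (hd : topologicalKrullDim Y.left ≤ (0 : ℕ)) :
    Subsingleton ((TQ M m d).obj ((M.D.tw n).obj (M.D.h Y))) := by
  change Subsingleton (T M m d (M.pull n Y))
  refine ⟨fun a b => Subtype.ext ?_⟩
  have h : ∀ x ∈ Hom M (M.pull n Y), x = 0 := by
    rw [hM.points Y hY hd n]
    exact fun x hx => (Submodule.mem_bot ℚ).mp hx
  rw [h a.1 (t_le m d _ a.2), h b.1 (t_le m d _ b.2)]

lemma conj_dim_iff (hM : Known M) (m : ℤ) (d : ℕ) :
    ConjDim M m d ↔ Saving (r := d + 1) (Exception M m d) := by
  rw [exception_iff,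
    ← Pool.Agent.Helper24.SE.functor_dim hM.weight (points_zero hM m d) m d]
  exact ⟨fun h Y _ _ => t_zero h _, of_zero hM⟩

/-- **Homologically trivial cycles over `ℚ̄` and exceptional sets with a power saving.** See the explanations
above. -/
theorem result (M : Mot.{v', u', v, u}) (hM : Known M) (m : ℤ) :
    -- (1) one dimension
    (∀ d : ℕ, ConjDim M m d ↔ Saving (r := d + 1) (Exception M m d)) ∧
    -- (2) all dimensions
    ((∀ d : ℕ, ConjDim M m d) ↔ ∃ᶠ d : ℕ in atTop, Saving (r := d + 1) (Exception M m d)) ∧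
    -- (3) one exception, and the zero-one law
    ∀ (d r : ℕ) (G : MvPolynomial (Fin r) ℤ), Exception M m d G →
      ¬ ConjDim M m d ∧ Full r (Exception M m d) := by
  refine ⟨conj_dim_iff hM m, ?_, fun d r G hG => ⟨fun hc => ?_, fun ε hε => ?_⟩⟩
  · constructor
    · exact fun h => Frequently.of_forall fun d => (conj_dim_iff hM m d).mp (h d)
    · intro h d X hX hd
      obtain ⟨e, he, h1⟩ := (frequently_atTop.mp h) d
      exact (conj_dim_iff hM m e).mpr h1 X hX (hd.trans (by exact_mod_cast he))
  · rw [exception_iff] at hG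
    obtain ⟨N, hN⟩ := Pool.Agent.Helper24.KZ.exists_dim_aff (k := ℚ)
      (Localization.Away (MvPolynomial.map (algebraMap ℤ ℚ) G))
    exact hG (Pool.Agent.Helper24.KF.one_zero hM.weight (fun Y _ _ => t_zero hc _) _
      (ft_aff True) hN)
  · rw [exception_iff] at hG ⊢
    exact Pool.Agent.Helper24.SE.functor_full hM.weight (points_zero hM m d) m hG hε

end Pool.Agent.Results.MP_32dfd1_ag.PowerSaving
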