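import Pool.Agent.Results.MP_32dfd1_ag.PowerSaving
import Pool.Agent.Helper7.UT.Main

/-!
# Homologically trivial cycles over `ℚ̄` and unions of two affine spaces

The notation is as in `MP_32dfd1_ag.PowerSaving`: for `m` and `d` and a Chow motive `N` over `ℚ̄`, `T_d(N)` is
the subspace of `CH(N) = Hom(1, N)` spanned by the images `f_*(x)` of the homologically trivial cycle classes
`x ∈ CH^m(Y)_ℚ` on the smooth projective `Y` over `ℚ̄` with `dim Y ≤ d` and `H^{2m-1}(Y, ℚ) = 0`, under all
correspondences `f : h(Y)(m) → N`. By base change it is an additive functor of the Chow motives over `ℚ`.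

For a smooth `U` over `ℚ` with a smooth projective compactification `X` such that `X - U` is a divisor with
simple normal crossings `D_1, …, D_s`, the complex `T_d(W(U)(m))` is
`T_d(h(X)(m)) → ⊕ T_d(h(D_i)(m)) → ⊕ T_d(h(D_i ∩ D_j)(m)) → …`.

For a polynomial `f ∈ ℚ[x_1, …, x_N]` let `V_f` be the hypersurface `f = 0` (`hyper f`), which can be
singular, reducible and non-reduced, and let `S_f` be the hypersurface `t ^ 2 - t = y f(x)` in the affine
space of dimension `N + 2` (`dbl f`).

**Theorem.** (1) `S_f` is smooth, affine and the union of two open subschemes isomorphic to the affine space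
of dimension `N + 1`.

(2) The complex `T_d(W(S_f)(m + 1))` is exact if and only if `T_d(W(V_f)(m))` is.

(3) For all `m` and `d` the following are equivalent: Q1 is true for `m` and all smooth projective varieties
over `ℚ̄` of dimension at most `d`; the complex `T_d(W(S_f)(m + 1))` is exact for all `f` in `d + 1`
variables; its cohomology has finite total dimension and Euler characteristic zero for all `f` in `d + 1`
variables.

(4) Q1 is true for `m` and all smooth projective varieties over `ℚ̄` if and only if the complexes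
`T_d(W(X)(m + 1))` are exact for all `d` and all smooth affine schemes `X` over `ℚ` which are unions of two
open subschemes isomorphic to an affine space, and also if and only if their cohomology has finite total
dimension and Euler characteristic zero.
-/

set_option autoImplicit false
set_option linter.checkUnivs false

open CategoryTheory Limits AlgebraicGeometry Pool.Agent.Y116.UV Pool.Agent.Q282.UM
  Pool.Agent.Q282.UK Pool.Agent.Helper24.KD Pool.Agent.Helper24.KF Pool.Agent.Helper7.UT

open Pool.Agent.Helper95.WC (hyper dbl addOne)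
open Pool.Agent.Helper24.SE (Acy)
open Pool.Agent.Results.MP_32dfd1_ag.PowerSaving

universe v' u' v u

namespace Pool.Agent.Results.MP_32dfd1_ag.UnionsOfTwoAffineSpaces

/-- `X` is a smooth affine scheme of finite type over `ℚ`, and the union of two open subschemes which are
isomorphic to the affine space of dimension `N`. -/
structure IsTwoSpaces (N : ℕ) (X : Sch ℚ) : Prop where
  ft : FT True X
  affine : IsAffine X.left
  smooth : Smooth X.hom
  glued : ∃ j₁ j₂ : aff ℚ (MvPolynomial (Fin N) ℚ) ⟶ X, IsOpenImmersion j₁.left ∧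
    IsOpenImmersion j₂.left ∧ Set.range j₁.left ∪ Set.range j₂.left = Set.univ

variable (M : Mot.{v', u', v, u})

/-- The complex `T_d(W(X)(n))` is exact. -/
def Exact (m : ℤ) (d : ℕ) (n : ℤ) (X : Sch ℚ) : Prop := Acy (TQ M m d) (M.wt n X)

/-- The cohomology of the complex `T_d(W(X)(n))` has finite total dimension and Euler characteristic
zero. -/
def EulerZero (m : ℤ) (d : ℕ) (n : ℤ) (X : Sch ℚ) : Prop :=
  FinCoh (TQ M m d) (M.wt n X) ∧ chi (TQ M m d) (M.wt n X) = 0

variable {M}

lemma two_spaces {N : ℕ} (f : MvPolynomial (Fin N) ℚ) : IsTwoSpaces (N + 1) (dbl f) where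
  ft := ft_aff True
  affine := (inferInstance : IsAffine (Spec (CommRingCat.of (Pool.Agent.Helper62.DB.Db f))))
  smooth := Pool.Agent.Helper62.DB.smooth0 f (addOne ℚ N)
  glued := Pool.Agent.Helper62.DB.two_spaces0 f (addOne ℚ N)

lemma euler_iff (m : ℤ) (d : ℕ) (n : ℤ) (X : Sch ℚ) :
    EulerZero M m d n X ↔ QP (fun K => TOne (TQ M m d) K 0) M.D n X := tOne_iff.symm

lemma zero_of {m : ℤ} {d : ℕ} {N : M.C₀} (h : Subsingleton ((TQ M m d).obj N)) :
    IsZero ((TQ M m d).obj N) := @ModuleCat.isZero_of_subsingleton _ _ _ h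

lemma exact_terms {m : ℤ} {d : ℕ} {n : ℤ} {X : Sch ℚ} {K : CochainComplex M.C₀ ℤ}
    (e : M.D.W X ≅ toHK K) (h : ∀ i, IsZero ((TQ M m d).obj ((M.D.tw n).obj (K.X i)))) :
    Exact M m d n X :=
  Pool.Agent.Helper24.SE.acy_iso _
    ⟨((M.D.tw n).mapHomotopyCategory (ComplexShape.up ℤ)).mapIso e.symm⟩
    (Pool.Agent.Helper24.SE.acy_terms _
      (((M.D.tw n).mapHomologicalComplex (ComplexShape.up ℤ)).obj K) h)

lemma exact_point (hM : Known M) (m : ℤ) (d : ℕ) (n : ℤ) : Exact M m d n (aff ℚ ℚ) := by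
  obtain ⟨K, _, ⟨e⟩, hK⟩ := hM.weight.terms (aff ℚ ℚ) (ft_aff True) 0 (by
    rw [Pool.Agent.Z125.UN.topDim_aff, ringKrullDim_eq_zero_of_field]
    exact le_rfl)
  refine exact_terms e fun i => ?_
  refine Pool.Agent.Helper24.SE.sumOf_zero (M.D.tw n ⋙ TQ M m d) ?_ (hK i)
  rintro N ⟨Y, h1, h2, ⟨e⟩⟩
  exact (zero_of (points_zero hM m d n Y h1 h2)).of_iso ((M.D.tw n ⋙ TQ M m d).mapIso e.symm)

/-- If Q1 is true then all the complexes are exact. -/
lemma exact_all (hM : Known M) {m : ℤ} {d : ℕ} (h : ConjDim M m d) (n : ℤ) (X : Sch ℚ)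
    (hX : FT True X) : Exact M m d n X := by
  have hc := cls (th_acy (TQ M m d)) hM.weight (D := M.D) n
  refine of_affine' (P := Exact M m d n) hc.iso hc.total (fun B _ _ _ => ?_) X hX
  obtain ⟨N, hN⟩ := Pool.Agent.Helper24.KZ.exists_dim_aff (k := ℚ) B
  obtain ⟨K, _, ⟨e⟩, _⟩ := hM.weight.terms (aff ℚ B) (ft_aff True) N hN
  exact exact_terms e fun i => zero_of (t_zero h _)

lemma conj_of (hM : Known M) {m : ℤ} {d : ℕ} {T : HK M.C₀ → Prop} (hT : Th T)
    (hp : ∀ n : ℤ, QP T M.D n (aff ℚ ℚ))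
    (hz : ∀ N : M.C₀, T (inZero N) → Subsingleton ((TQ M m d).obj N))
    (h : ∀ f : MvPolynomial (Fin (d + 1)) ℚ, QP T M.D (m + 1) (dbl f)) : ConjDim M m d := by
  refine of_zero hM fun Y hY hd => ?_
  have h1 : QP T M.D m Y := of_hyper hT hM.weight (hp _)
    (fun f => (dbl_hyper hT hM.weight (hp _) f).mp (h f)) Y (ft_projective hY) hd
  obtain ⟨e⟩ := hM.weight.projective Y hY
  refine hz _ (hT.iso ⟨((M.D.tw m).mapHomotopyCategory (ComplexShape.up ℤ)).mapIso e ≪≫ ?_⟩ h1)
  exact (HomotopyCategory.quotient M.C₀ (ComplexShape.up ℤ)).mapIso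
    ((HomologicalComplex.singleMapHomologicalComplex (M.D.tw m) (ComplexShape.up ℤ) 0).app
      (M.D.h Y))

lemma exact_euler {m : ℤ} {d : ℕ} {n : ℤ} {X : Sch ℚ} (h : Exact M m d n X) :
    EulerZero M m d n X := by
  have h1 : ∀ c, Subsingleton (Hn (TQ M m d) c (M.wt n X)) := fun c =>
    ModuleCat.subsingleton_of_isZero (h c)
  have h2 : ∀ c, Module.finrank ℚ (Hn (TQ M m d) c (M.wt n X)) = 0 := fun c =>
    have := h1 c
    Module.finrank_zero_of_subsingleton
  refine ⟨⟨fun c => ?_, ?_⟩, ?_⟩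
  · have := h1 c
    infer_instance
  · simp only [h2, Function.support_fun_zero, Set.finite_empty]
  · unfold chi
    simp only [h2, Nat.cast_zero, mul_zero, finsum_zero]

/-- **Homologically trivial cycles over `ℚ̄` and unions of two affine spaces.** See the explanations above. -/
theorem result (M : Mot.{v', u', v, u}) (hM : Known M) (m : ℤ) :
    -- (1) the double covers
    (∀ (N : ℕ) (f : MvPolynomial (Fin N) ℚ), IsTwoSpaces (N + 1) (dbl f)) ∧
    -- (2) double covers and hypersurfaces
    (∀ (d N : ℕ) (f : MvPolynomial (Fin N) ℚ),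
      (Exact M m d (m + 1) (dbl f) ↔ Exact M m d m (hyper f)) ∧
      (EulerZero M m d (m + 1) (dbl f) ↔ EulerZero M m d m (hyper f))) ∧
    -- (3) one dimension
    (∀ d : ℕ,
      (ConjDim M m d ↔ ∀ f : MvPolynomial (Fin (d + 1)) ℚ, Exact M m d (m + 1) (dbl f)) ∧
      (ConjDim M m d ↔ ∀ f : MvPolynomial (Fin (d + 1)) ℚ, EulerZero M m d (m + 1) (dbl f))) ∧
    -- (4) all dimensions
    ((∀ d : ℕ, ConjDim M m d) ↔
      ∀ (d N : ℕ) (X : Sch ℚ), IsTwoSpaces N X → Exact M m d (m + 1) X) ∧
    ((∀ d : ℕ, ConjDim M m d) ↔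
      ∀ (d N : ℕ) (X : Sch ℚ), IsTwoSpaces N X → EulerZero M m d (m + 1) X) := by
  have hE : ∀ (d : ℕ) (n : ℤ), QP (fun K => TOne (TQ M m d) K 0) M.D n (aff ℚ ℚ) := fun d n =>
    (euler_iff m d n _).mp (exact_euler (exact_point hM m d n))
  have hA : ∀ d : ℕ, (∀ f : MvPolynomial (Fin (d + 1)) ℚ, Exact M m d (m + 1) (dbl f)) →
      ConjDim M m d := fun d h =>
    conj_of hM (th_acy (TQ M m d)) (exact_point hM m d)
      (fun N hN => ModuleCat.subsingleton_of_isZero
        (Pool.Agent.Helper24.SE.acy_object (TQ M m d) N hN)) h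
  have hB : ∀ d : ℕ, (∀ f : MvPolynomial (Fin (d + 1)) ℚ, EulerZero M m d (m + 1) (dbl f)) →
      ConjDim M m d := fun d h =>
    conj_of hM (th_one (TQ M m d)) (hE d)
      (fun N hN => by
        obtain ⟨h1, h2⟩ := one_inZero.mp hN
        exact Module.finrank_zero_iff.mp (by exact_mod_cast h2))
      (fun f => (euler_iff m d _ _).mp (h f))
  refine ⟨fun N f => two_spaces f, fun d N f => ⟨?_, ?_⟩, fun d => ⟨⟨?_, hA d⟩, ⟨?_, hB d⟩⟩,
    ⟨?_, ?_⟩, ⟨?_, ?_⟩⟩
  · exact dbl_hyper (th_acy (TQ M m d)) hM.weight (exact_point hM m d _) f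
  · rw [euler_iff, euler_iff]
    exact dbl_hyper (th_one (TQ M m d)) hM.weight (hE d _) f
  · exact fun h f => exact_all hM h _ _ (two_spaces f).ft
  · exact fun h f => exact_euler (exact_all hM h _ _ (two_spaces f).ft)
  · exact fun h d N X hX => exact_all hM (h d) _ X hX.ft
  · exact fun h d => hA d fun f => h d (d + 2) _ (two_spaces f)
  · exact fun h d N X hX => exact_euler (exact_all hM (h d) _ X hX.ft)
  · exact fun h d => hB d fun f => h d (d + 2) _ (two_spaces f)

end Pool.Agent.Results.MP_32dfd1_ag.UnionsOfTwoAffineSpaces
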